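import Pool.Agent.Helper49.FS.Defs

/-!
# The action of `H^*(A, k)` on `Ext_A(M, N)` by `- ⊗ M` and Yoneda composition: definitions
-/

set_option autoImplicit false

open CategoryTheory CategoryTheory.Abelian CategoryTheory.Limits
open scoped ModuleCat TensorProduct

namespace Pool.Agent.Helper49.FS

universe w v u

section

variable {C : Type u} [Category.{v} C] [Abelian C] [HasExt.{w} C]

/-- For an exact functor `F` and an isomorphism `i : M → F(X)` the class `i F(x) i⁻¹` in
`Ext^n(M, M)` of a class `x` in `Ext^n(X, X)`. -/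
noncomputable def transport {X M : C} (F : C ⥤ C) [F.Additive] [PreservesFiniteLimits F]
    [PreservesFiniteColimits F] (i : M ≅ F.obj X) {n : ℕ} (x : Ext X X n) : Ext M M n :=
  (Ext.mk₀ i.hom).comp ((x.mapExactFunctor F).comp (Ext.mk₀ i.inv) (add_zero n)) (zero_add n)

/-- `Ext^*(M, N)` is generated as a module over `Ext^*(X, X)`, acting by `x y = (i F(x) i⁻¹) y`, by a
finite set `T` of homogeneous classes: every family of subgroups `P n` of the groups `Ext^n(M, N)`
which contains `T` and is closed under this action is everything. -/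
def FGFun {X M : C} (F : C ⥤ C) [F.Additive] [PreservesFiniteLimits F]
    [PreservesFiniteColimits F] (i : M ≅ F.obj X) (N : C) : Prop :=
  ∃ T : Set (Σ n, Ext M N n), T.Finite ∧
    ∀ P : ∀ n, AddSubgroup (Ext M N n), (∀ t ∈ T, t.2 ∈ P t.1) →
      (∀ (m n : ℕ) (x : Ext X X m) (y : Ext M N n), y ∈ P n →
        (transport F i x).comp y rfl ∈ P (m + n)) →
      ∀ n, P n = ⊤

end

variable (k : Type u) [Field k] {A : Type u} [Ring A] [Bialgebra k A]

/-- the `k`-linear map `a ↦ a x` -/
def orb (X : ModuleCat.{u} A) (x : X) : A →ₗ[k] X :=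
  (LinearMap.toSpanSingleton A X x).restrictScalars k

/-- `F` is the functor `X ↦ X ⊗_k M`, where `A` acts on `X ⊗ M` by `a (x ⊗ m) = ∑ a₁ x ⊗ a₂ m`, and
`i` is the map `M → F(k)`, `m ↦ 1 ⊗ m`: there are additive isomorphisms `e X : X ⊗ M → F(X)`, natural
in `X`, which commute with the actions of `A`, and `i m = e (1 ⊗ m)`. -/
def IsTens (M : ModuleCat.{u} A) (F : ModuleCat.{u} A ⥤ ModuleCat.{u} A)
    (i : M ⟶ F.obj (trivObj k A)) : Prop :=
  ∃ e : ∀ X : ModuleCat.{u} A, (X ⊗[k] M) ≃+ F.obj X,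
    (∀ (X Y : ModuleCat.{u} A) (f : X ⟶ Y) (x : X) (m : M),
      F.map f (e X (x ⊗ₜ m)) = e Y (f x ⊗ₜ m)) ∧
    (∀ (X : ModuleCat.{u} A) (a : A) (x : X) (m : M), a • e X (x ⊗ₜ m) =
      e X (TensorProduct.map (orb k X x) (orb k M m) (Coalgebra.comul a))) ∧
    ∀ m : M, i m = e (trivObj k A) ((show trivObj k A from (1 : k)) ⊗ₜ m)

/-- `Ext^*(M, N)` is a finitely generated module over `H^*(A, k) = Ext^*(k, k)`, which acts by
`- ⊗ M` followed by Yoneda composition. -/
def FGAct (M N : ModuleCat.{u} A) : Prop :=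
  ∃ (F : ModuleCat.{u} A ⥤ ModuleCat.{u} A) (_ : F.Additive) (_ : PreservesFiniteLimits F)
    (_ : PreservesFiniteColimits F) (i : M ≅ F.obj (trivObj k A)),
    IsTens k M F i.hom ∧ FGFun F i N

/-- The conditions (fg1') and (fg2'), the latter for `Ext_A(M, N)` for all finite-dimensional `M`,
`N`. -/
def FGH (k : Type u) [Field k] (A : Type u) [Ring A] [Bialgebra k A] : Prop :=
  FGAlg (trivObj k A) ∧
    ∀ M N : ModuleCat.{u} A, Module.Finite A M → Module.Finite A N → FGAct k M N

end Pool.Agent.Helper49.FS
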