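import Pool.Agent.Helper49.FS.Defs
import Pool.Agent.Helper90.FC.Defs

/-! The short definition of FGC agrees with the one of the library. -/

set_option autoImplicit false
set_option linter.unusedSectionVars false

open CategoryTheory CategoryTheory.Abelian CategoryTheory.Limits DirectSum
open scoped ModuleCat TensorProduct
open Pool.Agent.Helper59.FG Pool.Agent.Helper90.FC

namespace Pool.Agent.Helper49.FS

universe u

section pw

variable {β : ℕ → Type u} [∀ n, AddCommGroup (β n)]

/-- the elements of the direct sum with components in given subgroups -/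
def pw (P : ∀ n, AddSubgroup (β n)) : AddSubgroup (⨁ n, β n) where
  carrier := {w | ∀ n, w n ∈ P n}
  add_mem' {x y} hx hy n := by
    rw [DirectSum.add_apply]
    exact add_mem (hx n) (hy n)
  zero_mem' n := by
    rw [DirectSum.zero_apply]
    exact zero_mem _
  neg_mem' {x} hx n := by
    have h : (-x) n = - x n := DFinsupp.neg_apply x n
    rw [h]
    exact neg_mem (hx n)

theorem of_mem_pw {P : ∀ n, AddSubgroup (β n)} {n : ℕ} {y : β n} (hy : y ∈ P n) :
    DirectSum.of β n y ∈ pw P := by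
  intro m
  rcases eq_or_ne n m with rfl | h
  · rw [DirectSum.of_eq_same]; exact hy
  · rw [DirectSum.of_eq_of_ne _ _ _ h.symm]; exact zero_mem _

theorem mem_of_pw {P : ∀ n, AddSubgroup (β n)} {n : ℕ} {y : β n}
    (hy : DirectSum.of β n y ∈ pw P) : y ∈ P n := by
  have := hy n
  rwa [DirectSum.of_eq_same] at this

theorem sum_mem_pw (P : ∀ n, AddSubgroup (β n)) {γ : Type u} [AddCommMonoid γ] (W : AddSubmonoid γ)
    (f : (⨁ n, β n) →+ γ) (h : ∀ n, ∀ y ∈ P n, f (DirectSum.of β n y) ∈ W) {w : ⨁ n, β n}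
    (hw : w ∈ pw P) : f w ∈ W := by
  classical
  rw [← DirectSum.sum_support_of w, map_sum]
  exact W.sum_mem fun n _ => h n _ (hw n)

/-- the homogeneous components of the members of a finite set -/
def comps (s : Set (⨁ n, β n)) : Set (Σ n, β n) :=
  ⋃ r ∈ s, (fun n => (⟨n, r n⟩ : Σ n, β n)) '' {n | r n ≠ 0}

theorem comps_finite {s : Set (⨁ n, β n)} (hs : s.Finite) : (comps s).Finite :=
  hs.biUnion fun r _ => (DFinsupp.finite_support r).image _

theorem mem_comps {s : Set (⨁ n, β n)} {r : ⨁ n, β n} (hr : r ∈ s) {n : ℕ} (hn : r n ≠ 0) :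
    (⟨n, r n⟩ : Σ n, β n) ∈ comps s :=
  Set.mem_biUnion hr ⟨n, hn, rfl⟩

end pw

section

variable {k : Type u} [Field k] {A : Type u} [Ring A] [Bialgebra k A]

theorem of_comp {a b c : ℕ} (x : Ext (Pool.Agent.Helper59.FG.trivObj k A) (Pool.Agent.Helper59.FG.trivObj k A) a) (y : Ext (Pool.Agent.Helper59.FG.trivObj k A) (Pool.Agent.Helper59.FG.trivObj k A) b) (h : a + b = c) :
    DirectSum.of (EndExt (Pool.Agent.Helper59.FG.trivObj k A)) c (x.comp y h) =
      DirectSum.of (EndExt (Pool.Agent.Helper59.FG.trivObj k A)) a x * DirectSum.of (EndExt (Pool.Agent.Helper59.FG.trivObj k A)) b y := by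
  have h1 := DirectSum.of_mul_of (A := EndExt (Pool.Agent.Helper59.FG.trivObj k A)) (i := a) (j := b) x y
  have h2 := DirectSum.of_eq_of_gradedMonoid_eq (A := EndExt (Pool.Agent.Helper59.FG.trivObj k A)) (comp_sigma x y h)
  exact h2.symm.trans h1.symm

theorem of_act (M : ModuleCat.{u} A) {a b c : ℕ} (x : Ext (Pool.Agent.Helper59.FG.trivObj k A) (Pool.Agent.Helper59.FG.trivObj k A) a) (y : Ext (Pool.Agent.Helper59.FG.trivObj k A) M b)
    (h : a + b = c) :
    DirectSum.of (KExt k M) c (x.comp y h) =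
      DirectSum.of (EndExt (Pool.Agent.Helper59.FG.trivObj k A)) a x • DirectSum.of (KExt k M) b y := by
  have h1 := DirectSum.Gmodule.of_smul_of (A := EndExt (Pool.Agent.Helper59.FG.trivObj k A)) (M := KExt k M)
    (i := a) (j := b) x y
  have h2 := DirectSum.of_eq_of_gradedMonoid_eq (A := KExt k M) (comp_sigma x y h)
  exact h2.symm.trans h1.symm

/-- `Ext^0(k, k) = k`. -/
theorem deg_zero (x : Ext (Pool.Agent.Helper59.FG.trivObj k A) (Pool.Agent.Helper59.FG.trivObj k A) 0) : ∃ c : k, x = c • Ext.mk₀ (𝟙 (Pool.Agent.Helper59.FG.trivObj k A)) := by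
  obtain ⟨f, rfl⟩ := (Ext.mk₀_bijective _ _).2 x
  let one : Pool.Agent.Helper59.FG.trivObj k A := (1 : k)
  refine ⟨(show k from f.hom one), ?_⟩
  rw [← Ext.mk₀_smul]
  congr 1
  ext y
  have h : ∀ z : k, algebraMap k A z • one = (show (Pool.Agent.Helper59.FG.trivObj k A) from z) := by
    intro z
    change (Bialgebra.counitAlgHom k A (algebraMap k A z) * 1 : k) = z
    rw [AlgHom.commutes, mul_one]
    rfl
  have h1 : ∀ (z : k) (w : (Pool.Agent.Helper59.FG.trivObj k A)), algebraMap k A z • w =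
      (show (Pool.Agent.Helper59.FG.trivObj k A) from (z * (show k from w) : k)) := by
    intro z w
    change (Bialgebra.counitAlgHom k A (algebraMap k A z) * (show k from w) : k) = _
    rw [AlgHom.commutes]
    rfl
  have h2 : f.hom y = algebraMap k A (show k from y) • f.hom one := by
    rw [← map_smul, h]
  have h3 : ((show k from f.hom one) • (𝟙 (Pool.Agent.Helper59.FG.trivObj k A))).hom y =
      algebraMap k A (show k from f.hom one) • y := rfl
  rw [h2, h3, h1, h1]
  exact mul_comm (show k from y) (show k from f.hom one)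

/-! ### The algebra -/

theorem fgAlg_of_finiteType (h : Algebra.FiniteType k (⨁ n, EndExt (Pool.Agent.Helper59.FG.trivObj k A) n)) : FGAlg (Pool.Agent.Helper59.FG.trivObj k A) := by
  obtain ⟨s, hs⟩ := h.out
  refine ⟨comps (s : Set (⨁ n, EndExt (Pool.Agent.Helper59.FG.trivObj k A) n)), comps_finite s.finite_toSet, fun P h0 hP n => ?_⟩
  -- make `P` closed under scalars
  let Q : ∀ n, AddSubgroup (Ext (Pool.Agent.Helper59.FG.trivObj k A) (Pool.Agent.Helper59.FG.trivObj k A) n) := fun n =>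
    { carrier := {y | ∀ c : k, c • y ∈ P n}
      add_mem' := fun {x y} hx hy c => by
        rw [smul_add]; exact add_mem (hx c) (hy c)
      zero_mem' := fun c => by rw [smul_zero]; exact zero_mem _
      neg_mem' := fun {x} hx c => by rw [smul_neg]; exact neg_mem (hx c) }
  have hQP : ∀ n, ∀ y ∈ Q n, y ∈ P n := fun n y hy => by
    have := hy 1
    rwa [one_smul] at this
  have hQ0 : ∀ y : Ext (Pool.Agent.Helper59.FG.trivObj k A) (Pool.Agent.Helper59.FG.trivObj k A) 0, y ∈ Q 0 := fun y c => by rw [h0]; trivial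
  have hQs : ∀ r ∈ (s : Set (⨁ n, EndExt (Pool.Agent.Helper59.FG.trivObj k A) n)), ∀ m : ℕ, ∀ n : ℕ, ∀ y ∈ Q n,
      (Ext.comp (r m : Ext (Pool.Agent.Helper59.FG.trivObj k A) (Pool.Agent.Helper59.FG.trivObj k A) m) y rfl : Ext (Pool.Agent.Helper59.FG.trivObj k A) (Pool.Agent.Helper59.FG.trivObj k A) (m + n)) ∈ Q (m + n) := by
    intro r hr m n y hy c
    rw [← Ext.comp_smul]
    by_cases hm : r m = 0
    · have : (Ext.comp (r m : Ext (Pool.Agent.Helper59.FG.trivObj k A) (Pool.Agent.Helper59.FG.trivObj k A) m) (c • y) rfl : Ext (Pool.Agent.Helper59.FG.trivObj k A) (Pool.Agent.Helper59.FG.trivObj k A) (m + n)) = 0 := by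
        rw [hm]; exact Ext.zero_comp (X := (Pool.Agent.Helper59.FG.trivObj k A)) (Y := (Pool.Agent.Helper59.FG.trivObj k A)) (n := m) (c • y) (m + n) rfl
      rw [this]; exact zero_mem _
    · exact hP _ (mem_comps hr hm) n (c • y) (hy c)
  let Q' : ∀ n, AddSubgroup (EndExt (Pool.Agent.Helper59.FG.trivObj k A) n) := Q
  have key : ∀ r ∈ Algebra.adjoin k (s : Set (⨁ n, EndExt (Pool.Agent.Helper59.FG.trivObj k A) n)), ∀ w ∈ pw Q', r * w ∈ pw Q' := by
    intro r hr
    induction hr using Algebra.adjoin_induction with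
    | mem r hr =>
      intro w hw
      have h1 : ∀ m : ℕ, DirectSum.of (EndExt (Pool.Agent.Helper59.FG.trivObj k A)) m (r m) * w ∈ pw Q' := by
        intro m
        refine sum_mem_pw Q' (pw Q').toAddSubmonoid
          (AddMonoidHom.mulLeft (DirectSum.of (EndExt (Pool.Agent.Helper59.FG.trivObj k A)) m (r m))) ?_ hw
        intro n y hy
        change DirectSum.of (EndExt (Pool.Agent.Helper59.FG.trivObj k A)) m (r m) * DirectSum.of (EndExt (Pool.Agent.Helper59.FG.trivObj k A)) n y ∈ pw Q'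
        rw [← of_comp (r m) y rfl]
        exact of_mem_pw (hQs r hr m n y hy)
      classical
      have h2 := DirectSum.sum_support_of r
      rw [← h2, Finset.sum_mul]
      exact sum_mem fun m _ => h1 m
    | algebraMap c =>
      intro w hw
      rw [← Algebra.smul_def]
      intro n
      have h3 : (c • w) n = c • w n := DirectSum.smul_apply c w n
      rw [h3]
      intro d
      have h4 : d • (c • w n) = (d * c) • w n := smul_smul d c (w n)
      change d • (c • w n) ∈ P n
      rw [h4]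
      exact hw n (d * c)
    | add x y _ _ hx hy =>
      intro w hw
      rw [add_mul]
      exact add_mem (hx w hw) (hy w hw)
    | mul x y _ _ hx hy =>
      intro w hw
      rw [mul_assoc]
      exact hx _ (hy w hw)
  rw [eq_top_iff]
  intro y _
  refine hQP n y (mem_of_pw (P := Q') ?_)
  have h1 : (1 : ⨁ n, EndExt (Pool.Agent.Helper59.FG.trivObj k A) n) ∈ pw Q' := of_mem_pw (hQ0 (Ext.mk₀ (𝟙 (Pool.Agent.Helper59.FG.trivObj k A))))
  have h2 := key (DirectSum.of (EndExt (Pool.Agent.Helper59.FG.trivObj k A)) n y) (by rw [hs]; exact Algebra.mem_top) 1 h1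
  rwa [mul_one] at h2

theorem finiteType_of_fgAlg (h : FGAlg (Pool.Agent.Helper59.FG.trivObj k A)) : Algebra.FiniteType k (⨁ n, EndExt (Pool.Agent.Helper59.FG.trivObj k A) n) := by
  obtain ⟨S, hS, hgen⟩ := h
  set G : Set (⨁ n, EndExt (Pool.Agent.Helper59.FG.trivObj k A) n) := (fun p : Σ n, Ext (Pool.Agent.Helper59.FG.trivObj k A) (Pool.Agent.Helper59.FG.trivObj k A) n => DirectSum.of (EndExt (Pool.Agent.Helper59.FG.trivObj k A)) p.1 p.2) '' S
    with hG
  have hGf : G.Finite := hS.image _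
  let P : ∀ n, AddSubgroup (Ext (Pool.Agent.Helper59.FG.trivObj k A) (Pool.Agent.Helper59.FG.trivObj k A) n) := fun n =>
    (Subalgebra.toSubmodule (Algebra.adjoin k G)).toAddSubgroup.comap (DirectSum.of (EndExt (Pool.Agent.Helper59.FG.trivObj k A)) n)
  have h1 := hgen P ?_ ?_
  · refine ⟨⟨hGf.toFinset, ?_⟩⟩
    rw [Set.Finite.coe_toFinset, eq_top_iff]
    intro r _
    classical
    rw [← DirectSum.sum_support_of r]
    refine Subalgebra.sum_mem _ fun n _ => ?_
    have h2 : (r n : Ext (Pool.Agent.Helper59.FG.trivObj k A) (Pool.Agent.Helper59.FG.trivObj k A) n) ∈ P n := by rw [h1 n]; trivial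
    exact h2
  · rw [eq_top_iff]
    intro y _
    obtain ⟨c, hc⟩ := deg_zero (k := k) (A := A) y
    change DirectSum.of (EndExt (Pool.Agent.Helper59.FG.trivObj k A)) 0 y ∈ Algebra.adjoin k G
    have h2 : DirectSum.of (EndExt (Pool.Agent.Helper59.FG.trivObj k A)) 0 y = algebraMap k (⨁ n, EndExt (Pool.Agent.Helper59.FG.trivObj k A) n) c := by
      rw [hc]; rfl
    rw [h2]
    exact Subalgebra.algebraMap_mem _ c
  · intro s hs n y hy
    change DirectSum.of (EndExt (Pool.Agent.Helper59.FG.trivObj k A)) (s.1 + n) (s.2.comp y rfl) ∈ Algebra.adjoin k G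
    rw [of_comp s.2 y rfl]
    exact mul_mem (Algebra.subset_adjoin ⟨s, hs, rfl⟩) hy

/-! ### The modules -/

theorem fgMod_of_finite (M : ModuleCat.{u} A)
    (h : Module.Finite (⨁ n, EndExt (Pool.Agent.Helper59.FG.trivObj k A) n) (⨁ n, KExt k M n)) : FGMod (Pool.Agent.Helper59.FG.trivObj k A) M := by
  obtain ⟨t, ht⟩ := h.fg_top
  refine ⟨comps (t : Set (⨁ n, KExt k M n)), comps_finite t.finite_toSet, fun P hT hP n => ?_⟩
  let P' : ∀ n, AddSubgroup (KExt k M n) := P
  have key : ∀ r : ⨁ n, EndExt (Pool.Agent.Helper59.FG.trivObj k A) n, ∀ w ∈ pw P', r • w ∈ pw P' := by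
    intro r w hw
    classical
    rw [← DirectSum.sum_support_of r, Finset.sum_smul]
    refine sum_mem fun m _ => ?_
    refine sum_mem_pw P' (pw P').toAddSubmonoid
      (DistribSMul.toAddMonoidHom (⨁ n, KExt k M n) (DirectSum.of (EndExt (Pool.Agent.Helper59.FG.trivObj k A)) m (r m))) ?_ hw
    intro n y hy
    change DirectSum.of (EndExt (Pool.Agent.Helper59.FG.trivObj k A)) m (r m) • DirectSum.of (KExt k M) n y ∈ pw P'
    rw [← of_act M (r m) y rfl]
    exact of_mem_pw (P := P') (hP m n (r m) y hy)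
  let W : Submodule (⨁ n, EndExt (Pool.Agent.Helper59.FG.trivObj k A) n) (⨁ n, KExt k M n) :=
    { (pw P').toAddSubmonoid with smul_mem' := fun r w hw => key r w hw }
  have hW : W = ⊤ := by
    rw [eq_top_iff, ← ht, Submodule.span_le]
    intro r hr m
    by_cases hm : r m = 0
    · rw [hm]; exact zero_mem _
    · exact hT _ (mem_comps hr hm)
  rw [eq_top_iff]
  intro y _
  have h2 : DirectSum.of (KExt k M) n y ∈ W := by rw [hW]; trivial
  exact mem_of_pw (P := P') h2

theorem finite_of_fgMod (M : ModuleCat.{u} A) (h : FGMod (Pool.Agent.Helper59.FG.trivObj k A) M) :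
    Module.Finite (⨁ n, EndExt (Pool.Agent.Helper59.FG.trivObj k A) n) (⨁ n, KExt k M n) := by
  obtain ⟨T, hT, hgen⟩ := h
  set G : Set (⨁ n, KExt k M n) := (fun p : Σ n, Ext (Pool.Agent.Helper59.FG.trivObj k A) M n => DirectSum.of (KExt k M) p.1 p.2) '' T
    with hG
  have hGf : G.Finite := hT.image _
  let P : ∀ n, AddSubgroup (Ext (Pool.Agent.Helper59.FG.trivObj k A) M n) := fun n =>
    (Submodule.span (⨁ n, EndExt (Pool.Agent.Helper59.FG.trivObj k A) n) G).toAddSubgroup.comap (DirectSum.of (KExt k M) n)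
  have h1 := hgen P ?_ ?_
  · refine ⟨⟨hGf.toFinset, ?_⟩⟩
    rw [Set.Finite.coe_toFinset, eq_top_iff]
    intro r _
    classical
    rw [← DirectSum.sum_support_of r]
    refine sum_mem fun n _ => ?_
    have h2 : (r n : Ext (Pool.Agent.Helper59.FG.trivObj k A) M n) ∈ P n := by rw [h1 n]; trivial
    exact h2
  · intro t ht
    exact Submodule.subset_span ⟨t, ht, rfl⟩
  · intro m n x y hy
    change DirectSum.of (KExt k M) (m + n) (x.comp y rfl) ∈ Submodule.span (⨁ n, EndExt (Pool.Agent.Helper59.FG.trivObj k A) n) G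
    rw [of_act M x y rfl]
    exact Submodule.smul_mem _ _ hy

end

/-- **The bridge.** -/
theorem fgc_iff (k : Type u) [Field k] (A : Type u) [Ring A] [Bialgebra k A] :
    FGC k A ↔ Pool.Agent.Helper90.FC.FGC k A := by
  constructor
  · rintro ⟨h1, h2⟩
    exact ⟨finiteType_of_fgAlg h1, fun M hM => finite_of_fgMod M (h2 M hM)⟩
  · rintro ⟨h1, h2⟩
    exact ⟨fgAlg_of_finiteType h1, fun M hM => fgMod_of_finite M (h2 M hM)⟩

end Pool.Agent.Helper49.FS
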