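import Pool.Agent.Helper49.FS.Act
import Pool.Agent.Helper49.FS.Bridge
import Pool.Agent.Helper59.FG.CohAct

/-! `FGAct` follows from the finiteness of `⨁ n, ActExt M N n` in the library. -/

set_option autoImplicit false
set_option linter.unusedSectionVars false

open CategoryTheory CategoryTheory.Abelian CategoryTheory.Limits DirectSum
open scoped ModuleCat TensorProduct
open Pool.Agent.Helper59.FG Pool.Agent.Helper90.FC

namespace Pool.Agent.Helper49.FS

universe u

variable {k : Type u} [Field k] {A : Type u} [Ring A] [Bialgebra k A]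

theorem of_actA (M N : ModuleCat.{u} A) {a b c : ℕ}
    (x : Ext (Pool.Agent.Helper59.FG.trivObj k A) (Pool.Agent.Helper59.FG.trivObj k A) a)
    (y : Ext M N b) (h : a + b = c) :
    DirectSum.of (ActExt M N) c ((rst k M x).comp y h) =
      DirectSum.of (EndExt (Pool.Agent.Helper59.FG.trivObj k A)) a x •
        DirectSum.of (ActExt M N) b y := by
  have h1 := DirectSum.Gmodule.of_smul_of (A := EndExt (Pool.Agent.Helper59.FG.trivObj k A))
    (M := ActExt M N) (i := a) (j := b) x y
  have h2 := DirectSum.of_eq_of_gradedMonoid_eq (A := ActExt M N) (comp_sigma (rst k M x) y h)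
  exact h2.symm.trans h1.symm

theorem isTens (M : ModuleCat.{u} A) :
    IsTens k M (tensFunctor k M) (unitMap k M) := by
  refine ⟨fun X => AddEquiv.refl (X ⊗[k] M), ?_, ?_, ?_⟩
  · intro X Y f x m
    rfl
  · intro X a x m
    have h := tact_tmul k X M (Coalgebra.comul a) x m
    exact h
  · intro m
    rfl

theorem fgFun (M N : ModuleCat.{u} A)
    (h : Module.Finite (⨁ n, EndExt (Pool.Agent.Helper59.FG.trivObj k A) n)
      (⨁ n, ActExt M N n)) :
    FGFun (X := Pool.Agent.Helper59.FG.trivObj k A) (tensFunctor k M) (asIso (unitMap k M)) N := by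
  obtain ⟨t, ht⟩ := h.fg_top
  refine ⟨comps (t : Set (⨁ n, ActExt M N n)), comps_finite t.finite_toSet,
    fun P hT hP n => ?_⟩
  let P' : ∀ n, AddSubgroup (ActExt M N n) := P
  have key : ∀ r : ⨁ n, EndExt (Pool.Agent.Helper59.FG.trivObj k A) n, ∀ w ∈ pw P',
      r • w ∈ pw P' := by
    intro r w hw
    classical
    rw [← DirectSum.sum_support_of r, Finset.sum_smul]
    refine sum_mem fun m _ => ?_
    refine sum_mem_pw P' (pw P').toAddSubmonoid
      (DistribSMul.toAddMonoidHom (⨁ n, ActExt M N n)
        (DirectSum.of (EndExt (Pool.Agent.Helper59.FG.trivObj k A)) m (r m))) ?_ hw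
    intro n y hy
    change DirectSum.of (EndExt (Pool.Agent.Helper59.FG.trivObj k A)) m (r m) •
      DirectSum.of (ActExt M N) n y ∈ pw P'
    rw [← of_actA M N (r m) y rfl]
    exact of_mem_pw (P := P') (hP m n (r m) y hy)
  let W : Submodule (⨁ n, EndExt (Pool.Agent.Helper59.FG.trivObj k A) n) (⨁ n, ActExt M N n) :=
    { (pw P').toAddSubmonoid with smul_mem' := fun r w hw => key r w hw }
  have hW : W = ⊤ := by
    rw [eq_top_iff, ← ht, Submodule.span_le]
    intro r hr m
    by_cases hm : r m = 0
    · rw [hm]; exact zero_mem _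
    · exact hT _ (mem_comps hr hm)
  rw [eq_top_iff]
  intro y _
  have h2 : DirectSum.of (ActExt M N) n y ∈ W := by rw [hW]; trivial
  exact mem_of_pw (P := P') h2

theorem fgAct_of (M N : ModuleCat.{u} A)
    (h : Module.Finite (⨁ n, EndExt (Pool.Agent.Helper59.FG.trivObj k A) n)
      (⨁ n, ActExt M N n)) : FGAct k M N := by
  let i : M ≅ (tensFunctor k M).obj (Pool.Agent.Helper59.FG.trivObj k A) := asIso (unitMap k M)
  exact ⟨tensFunctor k M, inferInstance, inferInstance, inferInstance, i, isTens M,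
    fgFun M N h⟩

/-- the action of `H^*(A, k)` on `Ext(k, N)` is by classes in `Ext(k, k)` -/
theorem fgMod_of_fgAct (N : ModuleCat.{u} A)
    (h : FGAct k (Pool.Agent.Helper49.FS.trivObj k A) N) :
    FGMod (Pool.Agent.Helper49.FS.trivObj k A) N := by
  obtain ⟨F, _, _, _, i, _, T, hT, h1⟩ := h
  exact ⟨T, hT, fun P h2 h3 => h1 P h2 fun m n x y hy => h3 m n (transport F i x) y hy⟩

theorem finite_triv : Module.Finite A (Pool.Agent.Helper49.FS.trivObj k A) := by
  refine ⟨⟨{(show Pool.Agent.Helper49.FS.trivObj k A from (1 : k))}, ?_⟩⟩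
  rw [eq_top_iff]
  intro x _
  have h : algebraMap k A (show k from x) •
      (show Pool.Agent.Helper49.FS.trivObj k A from (1 : k)) = x := by
    change (Bialgebra.counitAlgHom k A (algebraMap k A (show k from x)) * 1 : k) = x
    rw [AlgHom.commutes, mul_one]
    rfl
  rw [← h]
  exact Submodule.smul_mem _ _ (Submodule.subset_span (by simp))

theorem fgc_of_fgh (h : FGH k A) : Pool.Agent.Helper90.FC.FGC k A :=
  (fgc_iff k A).1 ⟨h.1, fun N hN => fgMod_of_fgAct N (h.2 _ N finite_triv hN)⟩

end Pool.Agent.Helper49.FS
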