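import Mathlib

/-!
# Finitely generated cohomology of a bialgebra: a short definition

It uses nothing but `Ext` and the Yoneda product `Ext.comp` of Mathlib.
-/

set_option autoImplicit false

open CategoryTheory CategoryTheory.Abelian

namespace Pool.Agent.Helper49.FS

universe w v u

section

variable {C : Type u} [Category.{v} C] [Abelian C] [HasExt.{w} C]

/-- `Ext^*(X, X)` is generated by `Ext^0(X, X)` and a finite set `S` of homogeneous classes: every
family of subgroups `P n` of the groups `Ext^n(X, X)` with `P 0 = Ext^0(X, X)` which is closed under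
left multiplication by the members of `S` is everything. -/
def FGAlg (X : C) : Prop :=
  ∃ S : Set (Σ n, Ext X X n), S.Finite ∧
    ∀ P : ∀ n, AddSubgroup (Ext X X n), P 0 = ⊤ →
      (∀ s ∈ S, ∀ (n : ℕ) (y : Ext X X n), y ∈ P n → s.2.comp y rfl ∈ P (s.1 + n)) →
      ∀ n, P n = ⊤

/-- `Ext^*(X, M)` is generated as a module over `Ext^*(X, X)` by a finite set `T` of homogeneous
classes: every family of subgroups `P n` of the groups `Ext^n(X, M)` which contains `T` and is
closed under left multiplication by `Ext^*(X, X)` is everything. -/
def FGMod (X M : C) : Prop :=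
  ∃ T : Set (Σ n, Ext X M n), T.Finite ∧
    ∀ P : ∀ n, AddSubgroup (Ext X M n), (∀ t ∈ T, t.2 ∈ P t.1) →
      (∀ (m n : ℕ) (x : Ext X X m) (y : Ext X M n), y ∈ P n → x.comp y rfl ∈ P (m + n)) →
      ∀ n, P n = ⊤

end

variable (k : Type u) [Field k] (A : Type u) [Ring A] [Bialgebra k A]

/-- The trivial module: `k`, on which `A` acts through the counit. -/
noncomputable def trivObj : ModuleCat.{u} A :=
  @ModuleCat.of A _ k _ (Module.compHom k (Bialgebra.counitAlgHom k A).toRingHom)

/-- The finite generation property: `H^*(A, k) = Ext^*(k, k)` is a finitely generated algebra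
(`Ext^0(k, k) = k`) and `H^*(A, M) = Ext^*(k, M)` is a finitely generated module over it, for every
finitely generated `A`-module `M`. -/
def FGC : Prop :=
  FGAlg (trivObj k A) ∧ ∀ M : ModuleCat.{u} A, Module.Finite A M → FGMod (trivObj k A) M

end Pool.Agent.Helper49.FS
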