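import Pool.Agent.Helper49.FS.Twist
import Pool.Agent.Helper49.FS.Act

/-!
# Hopf algebras built from `C` by extensions: definitions
-/

set_option autoImplicit false

namespace Pool.Agent.Helper49.FS

universe u

section

variable (k : Type u) [Field k] {A B D : Type u} [Ring A] [Ring B] [Ring D]
  [HopfAlgebra k A] [HopfAlgebra k B] [HopfAlgebra k D]

/-- `B` acts on `ι(A)` through the quotient Hopf algebra `q : B → D`: `q` is surjective and all
elements of its kernel act by zero on `ι(A)` in the adjoint action. -/
def ActsThrough (ι : A →ₐc[k] B) (q : B →ₐc[k] D) : Prop :=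
  Function.Surjective q ∧ ∀ b : B, q b = 0 → ∀ a : A, adR k (ι a) b = 0

variable (D) in
/-- For some homomorphism `q : B → D`
* `B` acts on `A` through `D` (for `D = k` this says that `A` is central), or
* `k` has characteristic `p > 0`, `A` is commutative and generated by a stable subspace `U` of primitive
  elements, and `B` acts on `U^(1)` through `D`, or
* `k` has characteristic `p > 0`, `A` is commutative and the adjoint action of `B` on `A` has a
  thickening `P → A` on whose kernel `B` acts through `D`, with central matrix coefficients. -/
def Through (ι : A →ₐc[k] B) : Prop :=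
  ∃ q : B →ₐc[k] D, ActsThrough k ι q ∨
    ∃ p : ℕ, p.Prime ∧ CharP k p ∧ (TwistActs k p ι q ∨ LiftedActs k p ι q)

/-- `A` is semisimple, or `Through` holds for some semisimple Hopf algebra `D` -/
def Admissible (ι : A →ₐc[k] B) : Prop :=
  IsSemisimpleRing A ∨
    ∃ (D : Type u) (_ : Ring D) (_ : HopfAlgebra k D), IsSemisimpleRing D ∧ Through k D ι

variable (A B D) in
/-- there is an exact sequence `A → B → D` with `A` as in `Admissible` -/
def KerStep : Prop :=
  ∃ (ι : A →ₐc[k] B) (π : B →ₐc[k] D), HopfExact k ι π ∧ Admissible k ι

variable (A B) in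
/-- `A` is a Hopf subalgebra of `B` and `k` is a direct summand of the `B`-module `B ⊗_A k`: there is an
element `t` of `B` with `ε(t) = 1` and `b t - ε(b) t` in the left ideal `B A⁺` for all `b` (for
instance, if `A` is normal and `B // A` is semisimple). -/
def UpStep : Prop :=
  ∃ ι : A →ₐc[k] B, Function.Injective ι ∧ ∃ t : B, Coalgebra.counit (R := k) t = 1 ∧
    ∀ b : B, b * t - Coalgebra.counit (R := k) b • t ∈
      Ideal.span (ι '' {a : A | Coalgebra.counit (R := k) a = 0})

variable (A B) in
/-- There is a homomorphism of algebras `φ : A → B` such that `B` is a projective `A`-module (for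
instance, if `A` is a Hopf subalgebra of the finite-dimensional Hopf algebra `B`, or isomorphic to
`B` as an algebra). -/
def ProjStep : Prop :=
  ∃ φ : A →ₐ[k] B, @Module.Projective A _ B _ (Module.compHom B φ.toRingHom)

end

/-- `ExtSteps k C B`: the Hopf algebra `B` is reached from the Hopf algebra `C` by finitely many
steps of the following kinds: from `B'` to `B` in an exact sequence `A → B → B'` with `A` as in
`Admissible`; from a Hopf subalgebra `A` of `B` to `B`, if `k` is a direct summand of `B ⊗_A k`; from a
finite-dimensional Hopf algebra `B'` to `B`, if `B'` is a projective `B`-module for some homomorphism of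
algebras `B → B'`. -/
inductive ExtSteps (k : Type u) [Field k] (C : Type u) [Ring C] [HopfAlgebra k C] :
    (B : Type u) → [Ring B] → [HopfAlgebra k B] → Prop
  | refl : ExtSteps k C C
  | ker (A B B' : Type u) [Ring A] [Ring B] [Ring B'] [HopfAlgebra k A] [HopfAlgebra k B]
      [HopfAlgebra k B'] (h1 : KerStep k A B B') (h : ExtSteps k C B') : ExtSteps k C B
  | up (A B : Type u) [Ring A] [Ring B] [HopfAlgebra k A] [HopfAlgebra k B]
      (h1 : UpStep k A B) (h : ExtSteps k C A) : ExtSteps k C B
  | proj (B B' : Type u) [Ring B] [Ring B'] [HopfAlgebra k B] [HopfAlgebra k B']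
      [Module.Finite k B'] (h1 : ProjStep k B B') (h : ExtSteps k C B') : ExtSteps k C B

end Pool.Agent.Helper49.FS
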