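import Pool.Agent.Helper49.FS.Twist
import Pool.Agent.Helper49.FS.Bridge
import Pool.Agent.Helper49.FA.Main

/-! The definitions of `Twist.lean` agree with those of the library. -/

set_option autoImplicit false

open scoped TensorProduct
open WithConv

namespace Pool.Agent.Helper49.FS

universe u

section

variable {k : Type u} [Field k] {A B C D : Type u} [Ring A] [Ring B] [Ring C] [Ring D]
  [HopfAlgebra k A] [HopfAlgebra k B] [HopfAlgebra k C] [HopfAlgebra k D]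

theorem hopfExact_iff {ι : A →ₐc[k] B} {π : B →ₐc[k] C} :
    HopfExact k ι π ↔ Pool.Agent.Helper56.SS.HopfExact k ι π :=
  ⟨fun ⟨h1, h2, h3⟩ => ⟨h1, h2, h3⟩, fun ⟨h1, h2, h3⟩ => ⟨h1, h2, h3⟩⟩

theorem twistActs_iff {p : ℕ} {ι : A →ₐc[k] B} {q : B →ₐc[k] D} :
    TwistActs k p ι q ↔ Pool.Agent.Helper49.FA.TwistActs k p ι q :=
  ⟨fun ⟨h1, h2, h3⟩ => ⟨h1, h2, h3⟩, fun ⟨h1, h2, h3⟩ => ⟨h1, h2, h3⟩⟩

variable {P : Type u} [CommRing P] [Algebra k P]

theorem conv_lift (f g : B →ₗ[k] P) (t : B ⊗[k] B) :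
    LinearMap.mul' k P (TensorProduct.map f g t) =
      TensorProduct.lift ((LinearMap.mul k P).compl₁₂ f g) t := by
  induction t using TensorProduct.induction_on with
  | zero => simp
  | add x y hx hy => rw [map_add, map_add, map_add, hx, hy]
  | tmul x y => simp

theorem isModAlg_iff {act : B →ₗ[k] P →ₗ[k] P} :
    IsModAlg k (act : Act k B P) ↔ Pool.Agent.Helper49.FA.IsModAlg k act := by
  constructor
  · rintro ⟨h1, h2, h3, h4⟩
    refine ⟨h1, h2, h3, fun b f g => ?_⟩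
    have h5 := congr($(h4 f g) b)
    rw [← conv_lift]
    exact h5
  · rintro ⟨h1, h2, h3, h4⟩
    refine ⟨h1, h2, h3, fun f g => ?_⟩
    ext b
    have h5 := h4 b f g
    rw [← conv_lift] at h5
    exact h5

theorem tIdeal_eq (q n : ℕ) : Ideal.span {g : MvPolynomial (Fin n) k | ∃ i j,
    g = MvPolynomial.X i ^ q * MvPolynomial.X j} = Pool.Agent.Helper49.FA.tIdeal k q n := by
  unfold Pool.Agent.Helper49.FA.tIdeal
  congr 1
  ext g
  constructor
  · rintro ⟨i, j, rfl⟩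
    exact ⟨(i, j), rfl⟩
  · rintro ⟨⟨i, j⟩, rfl⟩
    exact ⟨i, j, rfl⟩

theorem liftedActs_iff {p : ℕ} {ι : A →ₐc[k] B} {q : B →ₐc[k] D} :
    LiftedActs k p ι q ↔ Pool.Agent.Helper49.FA.LiftedActs k p ι q := by
  constructor
  · rintro ⟨h1, h2, n, s, P, _, _, hs, X, ev, act, ⟨a1, a2, a3, a4, a5, a6⟩, b1, b2, b3, b4, b5⟩
    refine ⟨h1, h2, n, s, P, _, _, X, ev, act, hs, ⟨a1, ?_, a3, a4, a5, a6, isModAlg_iff.1 b1, b2, b3⟩,
      b4, b5⟩
    intro f
    rw [a2 f, tIdeal_eq]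
  · rintro ⟨h1, h2, n, s, P, _, _, X, ev, act, hs, ⟨a1, a2, a3, a4, a5, a6, b1, b2, b3⟩, b4, b5⟩
    refine ⟨h1, h2, n, s, P, _, _, hs, X, ev, act, ⟨a1, ?_, a3, a4, a5, a6⟩, isModAlg_iff.2 b1, b2, b3,
      b4, b5⟩
    intro f
    rw [a2 f, tIdeal_eq]

end

theorem twistSteps_of {k : Type u} [Field k] {C : Type u} [Ring C] [HopfAlgebra k C]
    {B : Type u} [Ring B] [HopfAlgebra k B] (h : TwistSteps k C B) :
    Pool.Agent.Helper49.FA.TwistSteps k C B := by
  induction h with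
  | refl => exact .refl
  | step p A B B' D h1 _ ih =>
    obtain ⟨ι, π, q, hex, h2 | h2⟩ := h1
    · exact .twist p ι π q (hopfExact_iff.1 hex) (twistActs_iff.1 h2) ih
    · exact .lift p ι π q (hopfExact_iff.1 hex) (liftedActs_iff.1 h2) ih

theorem twist_main (k : Type u) [Field k] (B C : Type u) [Ring B] [Ring C] [HopfAlgebra k B]
    [HopfAlgebra k C] [Module.Finite k B] (h : TwistSteps k C B) (hC : FGC k C) : FGC k B :=
  (fgc_iff k B).2 (Pool.Agent.Helper49.FA.twistSteps_fgc ((fgc_iff k C).1 hC) (twistSteps_of h)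
    inferInstance)

end Pool.Agent.Helper49.FS
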