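import Pool.Agent.Helper49.FS.Ext
import Pool.Agent.Helper49.FS.TwistBridge
import Pool.Agent.Helper49.FS.ActBridge
import Pool.Agent.Helper49.ES.Main

/-! The definitions of `Ext.lean` agree with those of the library. -/

set_option autoImplicit false

namespace Pool.Agent.Helper49.FS

universe u

section

variable {k : Type u} [Field k] {A B D : Type u} [Ring A] [Ring B] [Ring D]
  [HopfAlgebra k A] [HopfAlgebra k B] [HopfAlgebra k D]

theorem actsThrough_iff {ι : A →ₐc[k] B} {q : B →ₐc[k] D} :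
    ActsThrough k ι q ↔ Pool.Agent.Helper56.SS.ActsThrough k ι q :=
  ⟨fun ⟨h1, h2⟩ => ⟨h1, h2⟩, fun ⟨h1, h2⟩ => ⟨h1, h2⟩⟩

theorem admissible_of {ι : A →ₐc[k] B} (h : Admissible k ι) :
    Pool.Agent.Helper49.ES.Admissible k ι := by
  rcases h with h | ⟨D, _, _, hD, q, h | ⟨p, hp, hc, h | h⟩⟩
  · exact Or.inl h
  · exact Or.inr ⟨D, _, _, q, hD, Or.inl (actsThrough_iff.1 h)⟩
  · exact Or.inr ⟨D, _, _, q, hD, Or.inr ⟨p, hp, hc, Or.inl (twistActs_iff.1 h)⟩⟩
  · exact Or.inr ⟨D, _, _, q, hD, Or.inr ⟨p, hp, hc, Or.inr (liftedActs_iff.1 h)⟩⟩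

end

theorem extSteps_of {k : Type u} [Field k] {C : Type u} [Ring C] [HopfAlgebra k C]
    {B : Type u} [Ring B] [HopfAlgebra k B] (h : ExtSteps k C B) :
    Pool.Agent.Helper49.ES.ExtSteps k C B := by
  induction h with
  | refl => exact .refl
  | ker A B B' h1 _ ih =>
    obtain ⟨ι, π, hex, h2⟩ := h1
    exact .ker ι π (hopfExact_iff.1 hex) (admissible_of h2) ih
  | up A B h1 _ ih =>
    obtain ⟨ι, h2⟩ := h1
    exact .up ι h2 ih
  | proj B B' h1 _ ih =>
    obtain ⟨φ, h2⟩ := h1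
    exact .proj ⟨φ, h2⟩ ih

theorem ext_main (k : Type u) [Field k] (B C : Type u) [Ring B] [Ring C] [HopfAlgebra k B]
    [HopfAlgebra k C] [Module.Finite k B] (h : ExtSteps k C B)
    (hC : FGH k C ∨ IsSemisimpleRing C) : FGH k B := by
  have h1 : Pool.Agent.Helper90.FC.FGC k B := by
    refine Pool.Agent.Helper49.ES.extSteps_fgc (fun hf => ?_) (extSteps_of h) inferInstance
    rcases hC with hC | hC
    · exact fgc_of_fgh hC
    · exact Pool.Agent.Helper90.FC.fgc_semisimple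
  refine ⟨((fgc_iff k B).2 h1).1, fun M N _ _ => fgAct_of M N ?_⟩
  exact Pool.Agent.Helper90.FC.finite_of_fge (Pool.Agent.Helper90.FC.fge_of_fgc h1) M N

end Pool.Agent.Helper49.FS
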