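import Pool.Agent.Helper49.FS.Twist

/-!
# Exact sequences with a unipotent adjoint action on the kernel: definitions
-/

set_option autoImplicit false

namespace Pool.Agent.Helper49.FS

universe u

variable (k : Type u) [Field k] {A B C : Type u} [Ring A] [Ring B] [Ring C]
  [HopfAlgebra k A] [HopfAlgebra k B] [HopfAlgebra k C]

/-- `ι(A)` is stable under the adjoint action of `B`, and this action on `ι(A)` is unipotent: for some
`N`, every product of `N` elements of the augmentation ideal of `B` acts by zero. -/
def UnipotentAct (ι : A →ₐc[k] B) : Prop :=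
  (∀ (b : B) (a : A), ∃ a' : A, adR k (ι a) b = ι a') ∧
  ∃ N : ℕ, ∀ l : List B, l.length = N →
    (∀ b ∈ l, Coalgebra.counit (R := k) b = 0) → ∀ a : A, adR k (ι a) l.prod = 0

variable (A B C) in
/-- There is an exact sequence `k → A → B → C → k` of Hopf algebras such that the adjoint action of `B`
on `A` is unipotent. -/
def UnipotentExact : Prop :=
  ∃ (ι : A →ₐc[k] B) (π : B →ₐc[k] C), HopfExact k ι π ∧ UnipotentAct k ι

end Pool.Agent.Helper49.FS
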