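import Pool.Agent.Helper49.FS.ActBridge
import Pool.Agent.Helper49.FS.TwistBridge
import Pool.Agent.Helper49.FS.Unip
import Pool.Agent.Helper90.UN.Local
import Pool.Agent.Helper90.UN.Ext

/-! `FGH` from the finite generation property of the library; local Hopf algebras with local dual;
unipotent extensions. -/

set_option autoImplicit false

namespace Pool.Agent.Helper49.FS

universe u

theorem fgh_of_fgc {k : Type u} [Field k] {B : Type u} [Ring B] [HopfAlgebra k B]
    [Module.Finite k B] (h1 : Pool.Agent.Helper90.FC.FGC k B) : FGH k B :=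
  ⟨((fgc_iff k B).2 h1).1, fun M N _ _ => fgAct_of M N
    (Pool.Agent.Helper90.FC.finite_of_fge (Pool.Agent.Helper90.FC.fge_of_fgc h1) M N)⟩

theorem fgh_of_local {k : Type u} [Field k] {B : Type u} [Ring B] [HopfAlgebra k B]
    [Module.Finite k B] (hB : IsLocalRing B) (hd : IsLocalRing (WithConv (B →ₗ[k] k))) :
    FGH k B :=
  fgh_of_fgc (Pool.Agent.Helper90.FC.central_iter (C := k)
    Pool.Agent.Helper90.FC.fgc_semisimple (Pool.Agent.Helper90.UN.iter_of_local hB hd)
    inferInstance)

theorem fgc_of_unipotent {k : Type u} [Field k] {A B C : Type u} [Ring A] [Ring B] [Ring C]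
    [HopfAlgebra k A] [HopfAlgebra k B] [HopfAlgebra k C] [Module.Finite k B]
    (h : UnipotentExact k A B C) (hA : IsLocalRing (WithConv (A →ₗ[k] k))) (hC : FGC k C) :
    FGC k B := by
  obtain ⟨ι, π, ⟨h1, h2, h3⟩, h4, N, h5⟩ := h
  have h' : Pool.Agent.Helper90.UN.UnipotentExact k ι π :=
    ⟨h1, h2, fun b a => by
      obtain ⟨a', ha⟩ := h4 b a
      exact ⟨a', ha.symm⟩, h3, N, fun l hl hb a => h5 l hl hb a⟩
  exact (fgc_iff k B).2 (Pool.Agent.Helper90.FC.central_iter ((fgc_iff k C).1 hC)
    (Pool.Agent.Helper90.UN.iter_of_unipotent ι π h' hA) inferInstance)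

end Pool.Agent.Helper49.FS
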