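import Mathlib

/-!
# Principal extensions of Hopf algebras: definitions
-/

set_option autoImplicit false

namespace Pool.Agent.Helper49.FS

universe u

/-- There is a surjective homomorphism of Hopf algebras `π : B → C` whose kernel is the left ideal `B X`
for an element `X` of `B`, such that `B` is a local ring, or `X` is nilpotent and either
`X b - b X ∈ B X²` for all `b`, or the counit is the only homomorphism of algebras from `B` to `k`. -/
def PrincipalExt (k : Type u) [Field k] (B C : Type u) [Ring B] [Ring C] [HopfAlgebra k B]
    [HopfAlgebra k C] : Prop :=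
  ∃ (π : B →ₐc[k] C) (X : B), Function.Surjective π ∧ (∀ b : B, π b = 0 ↔ ∃ b' : B, b = b' * X) ∧
    (IsLocalRing B ∨ (IsNilpotent X ∧ ((∀ b : B, ∃ b' : B, X * b - b * X = b' * X ^ 2) ∨
      ∀ (χ : B →ₐ[k] k) (b : B), χ b = Coalgebra.counit (R := k) b)))

/-- `B` is obtained from `C` by finitely many principal extensions. -/
inductive IterPrincipal (k : Type u) [Field k] (C : Type u) [Ring C] [HopfAlgebra k C] :
    (B : Type u) → [Ring B] → [HopfAlgebra k B] → Prop
  | refl : IterPrincipal k C C
  | step (B B' : Type u) [Ring B] [Ring B'] [HopfAlgebra k B] [HopfAlgebra k B']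
      (h1 : PrincipalExt k B B') (h : IterPrincipal k C B') : IterPrincipal k C B

end Pool.Agent.Helper49.FS
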