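import Pool.Agent.Helper49.FS.Fgh
import Pool.Agent.Helper49.FS.PExt
import Pool.Agent.Helper77.PE

/-! The definitions of `PExt.lean` agree with those of the library. -/

set_option autoImplicit false

namespace Pool.Agent.Helper49.FS

universe u

theorem iterPrincipal_of {k : Type u} [Field k] {C : Type u} [Ring C] [HopfAlgebra k C]
    {B : Type u} [Ring B] [HopfAlgebra k B] (h : IterPrincipal k C B) :
    Pool.Agent.Helper77.PE.IterPrincipal k C B := by
  induction h with
  | refl => exact .refl
  | step B B' h1 _ ih =>
    obtain ⟨π, X, h2, h3, h4⟩ := h1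
    exact .step π ⟨h2, X, h3, h4⟩ ih

theorem pext_main (k : Type u) [Field k] (B C : Type u) [Ring B] [Ring C] [HopfAlgebra k B]
    [HopfAlgebra k C] [Module.Finite k B] (h : IterPrincipal k C B)
    (hC : FGH k C ∨ IsSemisimpleRing C) : FGH k B := by
  have h' := iterPrincipal_of h
  have hfC : Module.Finite k C := Pool.Agent.Helper77.PE.finite_iter h' inferInstance
  have hC' : Pool.Agent.Helper90.FC.FGC k C := by
    rcases hC with hC | hC
    · exact fgc_of_fgh hC
    · exact Pool.Agent.Helper90.FC.fgc_semisimple
  exact fgh_of_fgc (Pool.Agent.Helper77.PE.fgc_iter hC' h' inferInstance)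

end Pool.Agent.Helper49.FS
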