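import Pool.Agent.Helper49.FS.Twist

/-!
# Exact sequences of Hopf algebras with a principal augmentation ideal: definitions
-/

set_option autoImplicit false

open scoped TensorProduct
open WithConv

namespace Pool.Agent.Helper49.FS

universe u

section

variable (k : Type u) [Field k] {A B C : Type u} [Ring A] [Ring B] [Ring C]
  [HopfAlgebra k A] [HopfAlgebra k B] [HopfAlgebra k C]

/-- `∑ b₁ χ(b₂)`, for a linear form `χ` on `B`. -/
noncomputable def winding (χ : B →ₗ[k] k) (b : B) : B :=
  TensorProduct.rid k B (TensorProduct.map LinearMap.id χ (Coalgebra.comul (R := k) b))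

/-- The homomorphism of algebras `χ : B → k` satisfies `X b ∈ (∑ b₁ χ(b₂)) X + B X²` for all `b`. -/
def IsCharOf (X : B) (χ : B →ₐ[k] k) : Prop :=
  ∀ b : B, ∃ b' : B, X * b = winding k χ.toLinearMap b * X + b' * X ^ 2

/-- Some power `χ ^ n`, with `n` invertible in `k`, is central in the dual algebra of `B` (linear
forms on `B` with the convolution product). -/
def CentralPower (χ : B →ₗ[k] k) : Prop :=
  ∃ n : ℕ, (n : k) ≠ 0 ∧ ∀ f : B →ₗ[k] k, toConv χ ^ n * toConv f = toConv f * toConv χ ^ n

/-- `A⁺` is a principal left ideal `A x`, and for `X = ι x` there is a homomorphism of algebras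
`χ : B → k` which satisfies `X b ∈ (∑ b₁ χ(b₂)) X + B X²` for all `b` and has a power `χ ^ n`, `n`
invertible in `k`, which is central in the dual algebra of `B`; or `x` is nilpotent, and every
homomorphism of algebras `χ : B → k` which satisfies the first of these properties has the second. -/
def IsPrincipal (ι : A →ₐc[k] B) : Prop :=
  ∃ x : A, (∀ a : A, Coalgebra.counit (R := k) a = 0 ↔ ∃ a' : A, a = a' * x) ∧
    ((∃ χ : B →ₐ[k] k, IsCharOf k (ι x) χ ∧ CentralPower k χ.toLinearMap) ∨
      (IsNilpotent x ∧ ∀ χ : B →ₐ[k] k, IsCharOf k (ι x) χ → CentralPower k χ.toLinearMap))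

variable (A B C) in
/-- there is an exact sequence `k → A → B → C → k` such that `A → B` has the properties above -/
def PrincipalKernel : Prop :=
  ∃ (ι : A →ₐc[k] B) (π : B →ₐc[k] C), HopfExact k ι π ∧ IsPrincipal k ι

end

/-- `B` is obtained from `C` by finitely many such exact sequences `k → A → B → B' → k`. -/
inductive PrincipalSteps (k : Type u) [Field k] (C : Type u) [Ring C] [HopfAlgebra k C] :
    (B : Type u) → [Ring B] → [HopfAlgebra k B] → Prop
  | refl : PrincipalSteps k C C
  | step (A B B' : Type u) [Ring A] [Ring B] [Ring B'] [HopfAlgebra k A] [HopfAlgebra k B]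
      [HopfAlgebra k B'] (h1 : PrincipalKernel k A B B') (h : PrincipalSteps k C B') :
      PrincipalSteps k C B

end Pool.Agent.Helper49.FS
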