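import Pool.Agent.Helper49.FS.Bridge
import Pool.Agent.Helper49.FS.Princ
import Pool.Agent.Helper90.R2.Fin

/-! The definitions of `Princ.lean` agree with those of the library. -/

set_option autoImplicit false

namespace Pool.Agent.Helper49.FS

universe u

theorem principalSteps_of {k : Type u} [Field k] {C : Type u} [Ring C] [HopfAlgebra k C]
    {B : Type u} [Ring B] [HopfAlgebra k B] (h : PrincipalSteps k C B) :
    Pool.Agent.Helper90.R2.PrincipalSteps k C B := by
  induction h with
  | refl => exact .refl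
  | step A B B' h1 _ ih =>
    obtain ⟨ι, π, ⟨h2, h3, h4⟩, x, h5, h6⟩ := h1
    refine .step ι π ⟨h2, h3, h4, x, h5, ?_⟩ ih
    rcases h6 with ⟨χ, h7, h8⟩ | ⟨h7, h8⟩
    · exact Or.inr ⟨χ, h7, h8⟩
    · exact Or.inl ⟨h7, fun χ h9 => h8 χ h9⟩

theorem principal_main (k : Type u) [Field k] (B C : Type u) [Ring B] [Ring C] [HopfAlgebra k B]
    [HopfAlgebra k C] [Module.Finite k B] (h : PrincipalSteps k C B) (hC : FGC k C) : FGC k B :=
  (fgc_iff k B).2 (Pool.Agent.Helper90.R2.fgc_principalSteps ((fgc_iff k C).1 hC)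
    (principalSteps_of h) inferInstance)

end Pool.Agent.Helper49.FS
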