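import Pool.Agent.Helper49.FS.Defs

/-!
# Extensions by commutative kernels: definitions

`WithConv (B →ₗ[k] k)` is Mathlib's convolution algebra, that is, the dual algebra of the coalgebra
`B`: `f * g : b ↦ ∑ f(b₁) g(b₂)`.
-/

set_option autoImplicit false

open scoped TensorProduct
open WithConv

namespace Pool.Agent.Helper49.FS

universe u

section

variable (k : Type u) [Field k] {B : Type u} [Ring B] [HopfAlgebra k B]

/-- The left adjoint action `b ▷ x = ∑ b₁ x S(b₂)` of a Hopf algebra on itself, as a linear map in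
`b`: the convolution product of `b ↦ b x` and the antipode. -/
noncomputable def adR (x : B) : B →ₗ[k] B :=
  (toConv (LinearMap.mulRight k x) * toConv (HopfAlgebra.antipode k (A := B))).ofConv

end

section

variable (k : Type u) [Field k] {A B C D : Type u} [Ring A] [Ring B] [Ring C] [Ring D]
  [HopfAlgebra k A] [HopfAlgebra k B] [HopfAlgebra k C] [HopfAlgebra k D]

/-- The sequence of Hopf algebras `k → A → B → C → k` is exact: `ι` is injective, `π` is surjective
and the kernel of `π` is the left ideal generated by the image of the augmentation ideal of `A`.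
(This is implied by the usual definition, which also asks that `ι(A)` is stable under the adjoint
actions of `B`.) -/
def HopfExact (ι : A →ₐc[k] B) (π : B →ₐc[k] C) : Prop :=
  Function.Injective ι ∧ Function.Surjective π ∧
    ∀ b : B, π b = 0 ↔ b ∈ Ideal.span (ι '' {a : A | Coalgebra.counit (R := k) a = 0})

/-- `A` is commutative and generated as an algebra by a subspace `U` which consists of primitive
elements and whose image `ι(U)` is stable under the adjoint action of `B`, and `B` acts on the
Frobenius twist `U^(1)` through the quotient Hopf algebra `q : B → D`: `q` is surjective and all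
elements `b` of its kernel satisfy `(f ^ p) (b) = 0` for the matrix coefficients
`f : b ↦ φ (b ▷ ι u)` (`u` in `U`, `φ` a linear form) of the `B`-module `U`. (The `p`-th powers are
taken in the dual algebra of `B`; they span the space of matrix coefficients of `U^(1)`.) -/
def TwistActs (p : ℕ) (ι : A →ₐc[k] B) (q : B →ₐc[k] D) : Prop :=
  (∀ a a' : A, a * a' = a' * a) ∧ Function.Surjective q ∧
  ∃ U : Submodule k A, Algebra.adjoin k (U : Set A) = ⊤ ∧
    (∀ u ∈ U, Coalgebra.comul (R := k) u = u ⊗ₜ[k] 1 + 1 ⊗ₜ[k] u) ∧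
    (∀ u ∈ U, ∀ b : B, ∃ v ∈ U, adR k (ι u) b = ι v) ∧
    ∀ u ∈ U, ∀ (φ : B →ₗ[k] k) (b : B), q b = 0 →
      (toConv (φ ∘ₗ adR k (ι u)) ^ p).ofConv b = 0

variable {P : Type u} [CommRing P] [Algebra k P]

variable (B P) in
/-- The bilinear maps `B × P → P`. -/
def Act : Type u := B →ₗ[k] P →ₗ[k] P

variable {k} in
/-- `b f` -/
def Act.ap (act : Act k B P) (b : B) (f : P) : P :=
  let a : B →ₗ[k] P →ₗ[k] P := act
  a b f

variable {k} in
/-- the linear map `b ↦ b f` -/
def Act.orb (act : Act k B P) (f : P) : B →ₗ[k] P :=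
  let a : B →ₗ[k] P →ₗ[k] P := act
  a.flip f

/-- The bilinear map `act` is an action of the Hopf algebra `B` on the algebra `P`, which makes `P` a
module algebra: `1 f = f`, `(b b') f = b (b' f)`, `b 1 = ε(b) 1` and `b (f g) = ∑ (b₁ f) (b₂ g)`. -/
def IsModAlg (act : Act k B P) : Prop :=
  (∀ f, act.ap 1 f = f) ∧ (∀ b b' f, act.ap (b * b') f = act.ap b (act.ap b' f)) ∧
  (∀ b, act.ap b 1 = Coalgebra.counit (R := k) b • (1 : P)) ∧
  ∀ f g : P, act.orb (f * g) = (toConv (act.orb f) * toConv (act.orb g)).ofConv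

/-- `P = k[X_1, ..., X_n] / (X_i ^ q X_j)` (it is generated by the `X_i`, and the ideal of relations
between the `X_i` is generated by the `X_i ^ q X_j`), `ev : P → A` is a surjective algebra homomorphism
such that `x_i = ev (X_i)` satisfies `ε(x_i) = 0` and `x_i ^ q = 0`, where `dim A = q ^ n` (so that
`A = k[x_1, ..., x_n] / (x_i ^ q)`). -/
def IsThick (q : ℕ) {n : ℕ} (X : Fin n → P) (ev : P →ₐ[k] A) : Prop :=
  Algebra.adjoin k (Set.range X) = ⊤ ∧
  (∀ f : MvPolynomial (Fin n) k, MvPolynomial.aeval X f = 0 ↔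
    f ∈ Ideal.span {g | ∃ i j, g = MvPolynomial.X i ^ q * MvPolynomial.X j}) ∧
  Function.Surjective ev ∧ (∀ i, Coalgebra.counit (R := k) (ev (X i)) = 0) ∧
  (∀ i, ev (X i) ^ q = 0) ∧ Module.finrank k A = q ^ n

/-- `act` is an action of `B` on `P`, which makes `P` a module algebra, lifts the adjoint action
(`ι (ev (b f)) = b ▷ ι (ev f)`), is trivial on `A` (`ι(a) f = ε(a) f`), `B` acts on the kernel of `ev`
through the quotient `q : B → D`, and the matrix coefficients `b ↦ φ (b f)` (`f` in this kernel, `φ` a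
linear form on `P`) are central in the dual algebra of `B`. -/
def IsLift (ι : A →ₐc[k] B) (q : B →ₐc[k] D) (ev : P →ₐ[k] A) (act : Act k B P) : Prop :=
  IsModAlg k act ∧ (∀ (b : B) (f : P), ι (ev (act.ap b f)) = adR k (ι (ev f)) b) ∧
  (∀ (a : A) (f : P), act.ap (ι a) f = Coalgebra.counit (R := k) a • f) ∧
  (∀ f, ev f = 0 → ∀ b, q b = 0 → act.ap b f = 0) ∧
  ∀ f, ev f = 0 → ∀ (φ : P →ₗ[k] k) (g : B →ₗ[k] k),
    toConv (φ ∘ₗ act.orb f) * toConv g = toConv g * toConv (φ ∘ₗ act.orb f)

variable (P) in
/-- there are `X_1, ..., X_n` in `P`, `ev : P → A` and an action of `B` on `P` as above -/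
def LiftsTo (q' n : ℕ) (ι : A →ₐc[k] B) (q : B →ₐc[k] D) : Prop :=
  ∃ (X : Fin n → P) (ev : P →ₐ[k] A) (act : Act k B P), IsThick k q' X ev ∧ IsLift k ι q ev act

/-- `A` is commutative, `q` is surjective and there is a thickening `P` of the adjoint action of `B` on
`ι(A)` for some power `p ^ s > 1` of `p`. -/
def LiftedActs (p : ℕ) (ι : A →ₐc[k] B) (q : B →ₐc[k] D) : Prop :=
  (∀ a a' : A, a * a' = a' * a) ∧ Function.Surjective q ∧
  ∃ (n s : ℕ) (P : Type u) (_ : CommRing P) (_ : Algebra k P), 0 < s ∧ LiftsTo k P (p ^ s) n ι q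

variable (A B C D) in
/-- there is an exact sequence `A → B → C` and a quotient `B → D` as in (twist) or (lift) -/
def Step (p : ℕ) : Prop :=
  ∃ (ι : A →ₐc[k] B) (π : B →ₐc[k] C) (q : B →ₐc[k] D),
    HopfExact k ι π ∧ (TwistActs k p ι q ∨ LiftedActs k p ι q)

end

/-- `TwistSteps k C B`: the Hopf algebra `B` is reached from the Hopf algebra `C` by finitely many
steps from `B'` to `B` in an exact sequence `A → B → B'`, in characteristic `p`, as in (twist) or
(lift), with a semisimple quotient Hopf algebra `D` of `B`. -/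
inductive TwistSteps (k : Type u) [Field k] (C : Type u) [Ring C] [HopfAlgebra k C] :
    (B : Type u) → [Ring B] → [HopfAlgebra k B] → Prop
  | refl : TwistSteps k C C
  | step (p : ℕ) [Fact p.Prime] [CharP k p] (A B B' D : Type u) [Ring A] [Ring B] [Ring B'] [Ring D]
      [HopfAlgebra k A] [HopfAlgebra k B] [HopfAlgebra k B'] [HopfAlgebra k D] [IsSemisimpleRing D]
      (h1 : Step k A B B' D p) (h : TwistSteps k C B') : TwistSteps k C B

end Pool.Agent.Helper49.FS
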